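import Mathlib

set_option autoImplicit false

/-! Finite structures coding an unsatisfiable cyclic 2-CNF, and their approximate
representations by composition and demonic meet. -/

namespace Pool.Agent.H.MP_ef6db9_lc

open Function

def dom {X : Type} (R : Set (X × X)) : Set X := {x | ∃ y, (x, y) ∈ R}

def Df {X : Type} (R S : Set (X × X)) : Prop := dom R ∩ dom S = dom (R ∩ S)

def dmeet {X : Type} (R S : Set (X × X)) : Set (X × X) :=
  (R ∩ S) ∪ {p ∈ R | p.1 ∉ dom S} ∪ {p ∈ S | p.1 ∉ dom R}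

def rcomp {X : Type} (R S : Set (X × X)) : Set (X × X) :=
  {p | ∃ y, (p.1, y) ∈ R ∧ (y, p.2) ∈ S}

theorem Df.ex {X : Type} {R S : Set (X × X)} (h : Df R S) {x y y' : X} (a : (x, y) ∈ R)
    (b : (x, y') ∈ S) : ∃ w, (x, w) ∈ R ∧ (x, w) ∈ S :=
  (Set.ext_iff.1 h x).1 ⟨⟨y, a⟩, y', b⟩

theorem agree {X : Type} {R S : Set (X × X)}
    (h : ∀ x ∈ dom R, x ∈ dom S → ∀ y, (x, y) ∈ R ↔ (x, y) ∈ S) : Df R S ∧ R ∪ S = dmeet R S := by
  refine ⟨Set.ext fun x => ⟨fun ⟨⟨y, a⟩, b⟩ => ⟨y, a, (h x ⟨y, a⟩ b y).1 a⟩,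
    fun ⟨y, a, b⟩ => ⟨⟨y, a⟩, y, b⟩⟩, Set.ext fun ⟨x, y⟩ => ?_⟩
  have := fun a b => h x a b y
  have a : (x, y) ∈ R → x ∈ dom R := fun a => ⟨y, a⟩
  have b : (x, y) ∈ S → x ∈ dom S := fun a => ⟨y, a⟩
  simp only [dmeet, Set.mem_union, Set.mem_inter_iff, Set.mem_sep_iff]
  tauto

abbrev Lit (n : ℕ) := Fin (n + 2) × Bool

variable {n : ℕ}

def Cf (a b : Lit n) : Prop :=
  (b.1.val = a.1.val + 1 ∨ a.1.val = b.1.val + 1) ∧ a.2 ≠ b.2 ∨
    (a.1.val = 0 ∧ b.1.val = n + 1 ∨ b.1.val = 0 ∧ a.1.val = n + 1) ∧ a.2 = b.2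

def Clq (S : Set (Lit n)) : Prop := ∀ a ∈ S, ∀ b ∈ S, a ≠ b → Cf a b

abbrev Sh (n : ℕ) := {p : Set (Lit n) × Prop // Clq p.1 ∧ (p.2 → p.1.Subsingleton)}

inductive A (n : ℕ) | z | g | c (S : Sh n) | f (b : Bool) | e (i : Fin (n + 2)) (o : Option Bool)

def s0 (b : Prop) : Sh n := ⟨(∅, b), by simp [Clq]⟩

def s1 (l : Lit n) : Sh n := ⟨({l}, True), by simp [Clq]⟩

def A.cmp : A n → A n → A n
  | g, f b => c (s0 b)
  | g, e _ none => c (s0 True)
  | g, e i (some s) => c (s1 (i, s))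
  | _, _ => z

inductive Mt : A n → A n → A n → Prop
  | zl (x) : Mt .z x x
  | zr (x) : Mt x .z x
  | g : Mt .g .g .g
  | c (S T U : Sh n) : U.1.1 = S.1.1 ∪ T.1.1 → (U.1.2 ↔ S.1.2 ∧ T.1.2 ∧ U.1.1.Subsingleton) →
      Mt (.c S) (.c T) (.c U)
  | f (a b) : Mt (.f a) (.f b) (.f (a || b))
  | e (i o o') : Mt (.e i o) (.e i o') (.e i (if o = o' then o else none))

abbrev Row (n : ℕ) := Option {p : Lit n × Lit n // p.1 ≠ p.2 ∧ ¬ Cf p.1 p.2}

inductive Pt (n : ℕ)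
  | r (x : Row n) | q (x : Row n) (l : Lit n) | u (x : Row n) (b : Bool) | w (l : Lit n)
  | st (t : Bool) | zz (o : Option (Fin (n + 2)))

instance : Nonempty (Pt n) := ⟨.st true⟩

variable (j : Fin (n + 2))

def al (t : Bool) (i : Fin (n + 2)) : Bool := if i < j then t else !t

def In (x : Row n) (S : Set (Lit n)) (b : Prop) : Pt n → Prop
  | .w l => l ∉ S ∧ ∀ p, x = some p → l = p.1.1 ∨ l = p.1.2
  | .st t => x = none ∧ b ∧ ∀ l ∈ S, al j t l.1 = l.2
  | _ => False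

def H0 (x : Row n) (y : Pt n) : A n → Prop
  | .z => False
  | .g => (∃ l, y = .q x l) ∨ ∃ b, y = .u x b
  | .c S => In j x S.1.1 S.1.2 y
  | .f _ => x = none ∧ y = .zz none
  | .e i _ => x = none ∧ y = .zz (some i)

def HU (x : Row n) (b' : Bool) (y : Pt n) : A n → Prop
  | .f b => (b' = true → b = true) ∧ In j x ∅ b' y
  | _ => False

def HQ (x : Row n) (l : Lit n) (y : Pt n) : A n → Prop
  | .e i o => l.1 = i ∧ (∀ s, o = some s → l.2 = s) ∧ In j x {l} True y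
  | _ => False

def Hr (a : A n) : Pt n → Pt n → Prop
  | .r x => fun y => H0 j x y a
  | .u x b => fun y => HU j x b y a
  | .q x l => fun y => HQ j x l y a
  | _ => fun _ => False

def Hm (a : A n) : Set (Pt n × Pt n) := {p | Hr j a p.1 p.2}

theorem ne_row (x : Row n) {S : Set (Lit n)} (h : Clq S) : ∃ l, ∀ b, In j x S b (.w l) := by
  have key : ∀ a b : Lit n, a ≠ b → ¬ Cf a b → a ∉ S ∨ b ∉ S := fun a b c d => by
    by_contra e
    exact d (h a (by tauto) b (by tauto) c)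
  rcases x with _ | ⟨⟨a, b⟩, c, d⟩
  · rcases key (0, true) (0, false) (by simp) (by simp [Cf]) with e | e <;>
      exact ⟨_, fun _ => ⟨e, nofun⟩⟩
  · rcases key a b c d with e | e
    · exact ⟨_, fun _ => ⟨e, by rintro _ ⟨⟩; exact .inl rfl⟩⟩
    · exact ⟨_, fun _ => ⟨e, by rintro _ ⟨⟩; exact .inr rfl⟩⟩

theorem In.cases {x S b y} (h : In j x S b y) : (∃ l, y = .w l) ∨ ∃ t, y = .st t := by
  cases y <;> simp_all [In]

theorem Hm_cmp (a b : A n) : Hm j (a.cmp b) = rcomp (Hm j a) (Hm j b) := by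
  ext ⟨x, y⟩
  simp only [Hm, rcomp, Set.mem_setOf_eq]
  constructor
  · intro h
    rcases a with _ | _ | _ | _ | _ <;> rcases b with _ | _ | _ | b | ⟨i, _ | s⟩ <;>
      simp only [A.cmp] at h
    all_goals rcases x with x | _ | _ | _ | _ | _ <;> simp only [Hr, H0, HU, HQ] at h
    · exact ⟨.u x b, .inr ⟨_, rfl⟩, id, h⟩
    · rcases h.cases with ⟨l, rfl⟩ | ⟨t, rfl⟩
      · exact ⟨.q x (i, !l.2), .inl ⟨_, rfl⟩, rfl, nofun, fun e => by
          simpa using congrArg Prod.snd e, h.2⟩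
      · exact ⟨.q x (i, al j t i), .inl ⟨_, rfl⟩, rfl, nofun, h.1, trivial, by simp⟩
    · exact ⟨.q x (i, s), .inl ⟨_, rfl⟩, rfl, by simp, h⟩
  · rintro ⟨m, h1, h2⟩
    have : a = .g := by
      cases a <;> cases x <;> simp only [Hr, H0, HU, HQ] at h1
      · rfl
      all_goals
        exfalso
        first
          | (rcases In.cases j h1 with ⟨_, rfl⟩ | ⟨_, rfl⟩ <;> cases b <;> exact h2)
          | (rcases In.cases j h1.2 with ⟨_, rfl⟩ | ⟨_, rfl⟩ <;> cases b <;> exact h2)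
          | (rcases In.cases j h1.2.2 with ⟨_, rfl⟩ | ⟨_, rfl⟩ <;> cases b <;> exact h2)
          | (obtain ⟨-, rfl⟩ := h1; cases b <;> exact h2)
    subst this
    cases x <;> simp only [Hr, H0, HU, HQ] at h1
    rcases h1 with ⟨⟨i, s⟩, rfl⟩ | ⟨t, rfl⟩ <;> rcases b with _ | _ | _ | b | ⟨i, _ | s⟩ <;>
      simp only [Hr, H0, HU, HQ] at h2
    · rcases h2.2.2.cases with ⟨l, rfl⟩ | ⟨t, rfl⟩
      · exact ⟨id, h2.2.2.2⟩
      · exact ⟨h2.2.2.1, trivial, nofun⟩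
    · obtain ⟨rfl, h3, h4⟩ := h2
      cases h3 s rfl
      exact h4
    · rcases h2.2.cases with ⟨l, rfl⟩ | ⟨t, rfl⟩
      · exact h2.2
      · exact ⟨h2.2.1, h2.1 h2.2.2.1, nofun⟩

def Bad (a : A n) : Prop := ∃ S, a = .c S ∧ S.1.2 ∧ ∃ l ∈ S.1.1, l.1 = j

theorem Hm_mt {a b c : A n} (h : Mt a b c) (ha : ¬ Bad j a) (hb : ¬ Bad j b) :
    Df (Hm j a) (Hm j b) ∧ Hm j c = dmeet (Hm j a) (Hm j b) := by
  have z : Hm j .z = ∅ := Set.eq_empty_of_forall_notMem fun ⟨x, y⟩ => by cases x <;> exact id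
  cases h with
  | zl => simpa [z] using agree (R := ∅) (S := Hm j b) (by simp [dom])
  | zr => simpa [z] using agree (S := ∅) (R := Hm j a) (by simp [dom])
  | g => simpa using agree (R := Hm j .g) (S := Hm j .g) (by simp)
  | f a b =>
    refine (show Hm j (.f (a || b)) = Hm j (.f a) ∪ Hm j (.f b) from ?_) ▸ agree ?_
    · ext ⟨x, y⟩
      cases x <;> cases a <;> cases b <;> simp [Hm, Hr, H0, HU, HQ]
    · rintro x ⟨_, c⟩ ⟨_, d⟩ y
      cases x <;> simp_all [Hm, Hr, H0, HU, HQ]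
  | e i o o' =>
    refine (show Hm j (.e i (if o = o' then o else none)) =
      Hm j (.e i o) ∪ Hm j (.e i o') from ?_) ▸ agree ?_
    · ext ⟨x, y⟩
      rcases x with _ | ⟨x, l, _ | _⟩ | _ | _ | _ | _ <;> rcases o with _ | _ | _ <;>
        rcases o' with _ | _ | _ <;> simp [Hm, Hr, H0, HU, HQ]
    · rintro x ⟨_, c⟩ ⟨_, d⟩ y
      cases x <;> simp_all [Hm, Hr, H0, HU, HQ]
  | c S T U h1 h2 =>
    have k : Hm j (.c U) = Hm j (.c S) ∩ Hm j (.c T) := by
      ext ⟨x, y⟩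
      cases x <;> cases y <;> simp only [Hm, Hr, H0, HU, HQ, In, h1, h2, Set.mem_setOf_eq, Set.mem_inter_iff,
        Set.mem_union, and_self]
      · tauto
      · rename_i x t
        refine ⟨fun h => ⟨⟨h.1, h.2.1.1, fun l e => h.2.2 l (.inl e)⟩, h.1, h.2.1.2.1,
          fun l e => h.2.2 l (.inr e)⟩, fun ⟨⟨a, b, c⟩, _, d, e⟩ =>
          ⟨a, ⟨b, d, fun l hl l' hl' => ?_⟩, fun l f => f.elim (c l) (e l)⟩⟩
        by_contra hn
        have h3 := U.2.1 l (h1 ▸ hl) l' (h1 ▸ hl') hn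
        have h4 : ∀ l ∈ S.1.1 ∪ T.1.1, al j t l.1 = l.2 ∧ l.1.val ≠ j.val := fun l hl =>
          ⟨hl.elim (c l) (e l), fun f => hl.elim (fun g => ha ⟨_, rfl, b, l, g, Fin.ext f⟩)
            fun g => hb ⟨_, rfl, d, l, g, Fin.ext f⟩⟩
        obtain ⟨h5, h6⟩ := h4 l hl
        obtain ⟨h7, h8⟩ := h4 l' hl'
        have := j.2
        simp only [Cf, ← h5, ← h7, al, Fin.lt_def] at h3
        split_ifs at h3 <;> cases t <;> simp only [Bool.not_true, Bool.not_false, ne_eq,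
          not_true, and_false, false_or, or_false, and_true, reduceCtorEq, not_false_iff] at h3 <;>
          omega
    have d : ∀ V : Sh n, dom (Hm j (.c V)) = Set.range Pt.r := fun V => Set.ext fun x =>
      ⟨fun ⟨y, h⟩ => by cases x <;> first | exact ⟨_, rfl⟩ | exact h.elim, by
        rintro ⟨x, rfl⟩
        exact (ne_row j x V.2.1).elim fun l h => ⟨.w l, h V.1.2⟩⟩
    refine ⟨by rw [Df, ← k, d, d, d, Set.inter_self], ?_⟩
    rw [k, dmeet, d, d]
    ext p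
    have a : p ∈ Hm j (.c S) → p.1 ∈ Set.range Pt.r := fun h => d S ▸ ⟨p.2, h⟩
    have b : p ∈ Hm j (.c T) → p.1 ∈ Set.range Pt.r := fun h => d T ▸ ⟨p.2, h⟩
    simp only [Set.mem_union, Set.mem_sep_iff]
    tauto

theorem main_row {a : A n} (h : a ≠ .z) : ∃ y, (Pt.r none, y) ∈ Hm j a := by
  cases a
  · exact (h rfl).elim
  · exact ⟨_, .inr ⟨true, rfl⟩⟩
  · rename_i S
    exact (ne_row j none S.2.1).elim fun l h => ⟨.w l, h S.1.2⟩
  · exact ⟨_, rfl, rfl⟩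
  · exact ⟨_, rfl, rfl⟩

theorem Hm_df {a b : A n} (h : Df (Hm j a) (Hm j b)) : ∃ c, Mt a b c := by
  by_cases ha : a = .z
  · exact ⟨b, ha ▸ Mt.zl _⟩
  by_cases hb : b = .z
  · exact ⟨a, hb ▸ Mt.zr _⟩
  obtain ⟨_, h1⟩ := main_row j ha
  obtain ⟨_, h2⟩ := main_row j hb
  obtain ⟨y, h3, h4⟩ := h.ex h1 h2
  clear h1 h2
  cases a <;> cases b <;> cases y <;> simp only [Hm, Hr, H0, In, Set.mem_setOf_eq, reduceCtorEq,
    exists_false, or_self, and_false, true_and, Pt.zz.injEq, Option.some.injEq] at h3 h4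
  all_goals first
    | exact ⟨_, .g⟩
    | exact ⟨_, .f _ _⟩
    | (subst h3; cases h4; done)
    | (subst h3; cases h4; exact ⟨_, .e _ _ _⟩)
    | skip
  all_goals
    rename_i S T _
    refine ⟨_, .c S T ⟨(S.1.1 ∪ T.1.1, S.1.2 ∧ T.1.2 ∧ (S.1.1 ∪ T.1.1).Subsingleton),
      fun a ha b hb hn => ?_, fun h => h.2.2⟩ rfl .rfl⟩
    by_contra hc
    obtain ⟨l, h5⟩ := ne_row j (some ⟨(a, b), hn, hc⟩) S.2.1
    obtain ⟨l', h6⟩ := ne_row j (some ⟨(a, b), hn, hc⟩) T.2.1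
    obtain ⟨y, h7, h8⟩ := h.ex (x := .r _) (y := .w l) (y' := .w l') (h5 S.1.2) (h6 T.1.2)
    rcases In.cases j h7 with ⟨m, rfl⟩ | ⟨t, rfl⟩
    · rcases h7.2 _ rfl with rfl | rfl
      exacts [ha.elim h7.1 h8.1, hb.elim h7.1 h8.1]
    · cases h7.1

theorem Hm_inj : Injective (Hm j) := by
  intro a b h
  have k : ∀ x y, Hr j a x y ↔ Hr j b x y := fun x y => Set.ext_iff.1 h (x, y)
  by_cases ha : a = .z
  · by_contra hb
    obtain ⟨y, h1⟩ := main_row j (a := b) fun e => hb (ha.trans e.symm)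
    exact (ha ▸ k (.r none) y).2 h1
  obtain ⟨y, h1⟩ := main_row j ha
  have h2 : (Pt.r none, y) ∈ Hm j b := h ▸ h1
  cases a <;> cases b <;> cases y <;> simp only [Hm, Hr, H0, In, Set.mem_setOf_eq, reduceCtorEq,
    exists_false, or_self, and_false, true_and, Pt.zz.injEq, Option.some.injEq] at h1 h2
  all_goals first
    | rfl
    | (subst h1; cases h2; done)
    | skip
  iterate 2
    rename_i S T _
    have e1 : S.1.1 = T.1.1 := Set.ext fun l => by simpa [Hr, H0, HU, HQ, In, not_iff_not] using k (.r none) (.w l)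
    have e2 : ∀ S : Sh n, S.1.2 ↔ ∃ t, Hr j (.c S) (.r none) (.st t) := fun S =>
      ⟨fun h => by
        rcases (S.2.2 h).eq_empty_or_singleton with e | ⟨l, e⟩
        · exact ⟨true, rfl, h, by simp [e]⟩
        · refine ⟨if l.1 < j then l.2 else !l.2, rfl, h, ?_⟩
          simp only [e, Set.mem_singleton_iff, forall_eq, al]
          split_ifs <;> simp, fun ⟨_, h⟩ => h.2.1⟩
    rw [show S = T from Subtype.ext (Prod.ext e1 (propext ((e2 S).trans
      ((exists_congr fun _ => k _ _).trans (e2 T).symm))))]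
  · rename_i a b _
    have := k (.u none true) (.st true)
    cases a <;> cases b <;> simp [Hr, HU, In] at this ⊢
  · rename_i i o i' o' _
    subst h1
    cases h2
    have := fun s => k (.q none (i, s)) (.w (i, !s))
    have h3 := this true
    have h4 := this false
    rcases o with _ | _ | _ <;> rcases o' with _ | _ | _ <;> simp_all [Hr, H0, HU, HQ, In]

theorem not_rep {X : Type} {h : A n → Set (X × X)} (hi : Injective h)
    (h1 : ∀ a b, h (a.cmp b) = rcomp (h a) (h b))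
    (h2 : ∀ a b c, Mt a b c → h c = dmeet (h a) (h b)) : False := by
  have le : ∀ a b, Mt a b a → (∀ x y, (x, y) ∈ h b → x ∈ dom (h a)) ∧
      ∀ x y, (x, y) ∈ h a → x ∈ dom (h b) → (x, y) ∈ h b := fun a b m => by
    have := Set.ext_iff.1 (h2 _ _ _ m)
    simp only [dmeet, Set.mem_union, Set.mem_inter_iff, Set.mem_sep_iff] at this
    refine ⟨fun x y e => by_contra fun c => c ⟨y, (this (x, y)).2 (.inr ⟨e, c⟩)⟩, fun x y e c => ?_⟩
    have := (this (x, y)).1 e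
    tauto
  have dc : Mt (.c (s0 False)) (.c (s0 True)) (.c (s0 False) : A n) := .c _ _ _ (by simp [s0])
    (by simp [s0])
  have e0 : h (.c (s0 True)) = rcomp (h .g) (h (.f true)) := by rw [← h1]; simp [A.cmp]
  have e1 : h (.c (s0 False)) = rcomp (h .g) (h (.f false)) := by rw [← h1]; simp [A.cmp]
  have : h (.c (s0 False)) = h (.c (s0 True)) := by
    ext ⟨x, w⟩
    refine ⟨fun a => (le _ _ dc).2 _ _ a ?_, fun a => by_contra fun hn => ?_⟩
    · rw [e1] at a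
      obtain ⟨y, a, b⟩ := a
      obtain ⟨v, c⟩ := (le _ _ (.f true false)).1 _ _ b
      exact ⟨v, e0 ▸ ⟨y, a, c⟩⟩
    have cf : ∀ l l' : Lit n, l ≠ l' → Cf l l' → Cf l' l → (x, w) ∈ h (.c (s1 l)) →
        (x, w) ∉ h (.c (s1 l')) := fun l l' c d d' f g => by
      let U : Sh n := ⟨({l, l'}, False), by
        rintro _ (rfl | rfl) _ (rfl | rfl) <;> simp [d, d'], nofun⟩
      have m : Mt (.c (s1 l)) (.c (s1 l')) (.c U) := .c _ _ _ rfl (by
        simpa [U, s1] using Set.nontrivial_pair c)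
      refine hn ((le _ _ (.c U _ U (by simp [s0]) (by simp [U]))).2 _ _ ?_ ((le _ _ dc).1 _ _ a))
      rw [h2 _ _ _ m]
      exact .inl (.inl ⟨f, g⟩)
    have sp : ∀ i, ∃ s, (x, w) ∈ h (.c (s1 (i, s))) := fun i => by
      have : h (.c (s0 True)) = _ := h1 .g (.e i none)
      rw [this, show h (.e i none) = _ from h2 _ _ _ (.e i (some true) (some false))] at a
      obtain ⟨y, a, (b | b) | b⟩ := a
      · exact ⟨true, (h1 .g (.e i (some true))).ge ⟨y, a, b.1⟩⟩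
      · exact ⟨true, (h1 .g (.e i (some true))).ge ⟨y, a, b.1⟩⟩
      · exact ⟨false, (h1 .g (.e i (some false))).ge ⟨y, a, b.1⟩⟩
    obtain ⟨s, hs⟩ := sp 0
    have all : ∀ i, (x, w) ∈ h (.c (s1 (i, s))) := by
      intro i
      induction i using Fin.induction with
      | zero => exact hs
      | succ i ih =>
        obtain ⟨t, ht⟩ := sp i.succ
        by_cases e : s = t
        · rwa [e]
        · exact (cf _ _ (by simp [e]) (by simp [Cf, e]) (by simp [Cf, Ne.symm e]) ih ht).elim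
    exact cf (0, s) (Fin.last _, s) (by simp [Fin.ext_iff]) (by simp [Cf]) (by simp [Cf])
      hs (all _)
  simpa [s0, Subtype.ext_iff] using hi this

end Pool.Agent.H.MP_ef6db9_lc
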